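import Pool.Agent.Lib.MP_e8398c_co.H70.QFour

/-!
Two-rowed plane partitions and the recursion of their generating functions.
-/

namespace Pool.Agent.Lib.MP_e8398c_co.H70

open Finset Polynomial

/-- Plane partitions with two rows and `P` columns (a weakly decreasing array), whose columns
with index `≥ p` vanish, with entries of the first row `≤ a` and of the second row `≤ b`. -/
noncomputable def T (P p a b : ℕ) : Finset (Fin 2 × Fin P → ℕ) := by
  classical
  exact (Fintype.piFinset fun c => Finset.range ((if c.1 = 0 then a else b) + 1)).filter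
    fun x => Antitone x ∧ ∀ c, p ≤ (c.2 : ℕ) → x c = 0

lemma mem_T {P p a b : ℕ} {x : Fin 2 × Fin P → ℕ} :
    x ∈ T P p a b ↔ (∀ j, x (0, j) ≤ a) ∧ (∀ j, x (1, j) ≤ b) ∧ Antitone x ∧
      ∀ c, p ≤ (c.2 : ℕ) → x c = 0 := by
  classical
  unfold T
  rw [Finset.mem_filter, Fintype.mem_piFinset]
  constructor
  · rintro ⟨h1, h2, h3⟩
    refine ⟨fun j => ?_, fun j => ?_, h2, h3⟩
    · have := h1 (0, j); simpa [Nat.lt_succ_iff] using this
    · have := h1 (1, j); simpa [Nat.lt_succ_iff] using this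
  · rintro ⟨h0, h1, h2, h3⟩
    refine ⟨?_, h2, h3⟩
    rintro ⟨i, j⟩
    fin_cases i
    · simpa [Nat.lt_succ_iff] using h0 j
    · simpa [Nat.lt_succ_iff] using h1 j

/-- Put a new first column. -/
def cons {P : ℕ} (a b : ℕ) (x : Fin 2 × Fin P → ℕ) : Fin 2 × Fin (P + 1) → ℕ :=
  fun c => Fin.cases (if c.1 = 0 then a else b) (fun j => x (c.1, j)) c.2

/-- Remove the first column. -/
def tl {P : ℕ} (x : Fin 2 × Fin (P + 1) → ℕ) : Fin 2 × Fin P → ℕ :=
  fun c => x (c.1, c.2.succ)

@[simp] lemma tl_cons {P : ℕ} (a b : ℕ) (x : Fin 2 × Fin P → ℕ) : tl (cons a b x) = x := by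
  funext c
  simp [tl, cons]

@[simp] lemma cons_zero_zero {P : ℕ} (a b : ℕ) (x : Fin 2 × Fin P → ℕ) :
    cons a b x (0, 0) = a := by simp [cons]

@[simp] lemma cons_one_zero {P : ℕ} (a b : ℕ) (x : Fin 2 × Fin P → ℕ) :
    cons a b x (1, 0) = b := by simp [cons]

@[simp] lemma cons_succ {P : ℕ} (a b : ℕ) (x : Fin 2 × Fin P → ℕ) (i : Fin 2) (j : Fin P) :
    cons a b x (i, j.succ) = x (i, j) := by simp [cons]

lemma cons_tl {P : ℕ} (x : Fin 2 × Fin (P + 1) → ℕ) : cons (x (0, 0)) (x (1, 0)) (tl x) = x := by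
  funext c
  obtain ⟨i, j⟩ := c
  refine Fin.cases ?_ (fun j => ?_) j
  · fin_cases i <;> simp [cons]
  · simp [cons, tl]

lemma wt_cons {P : ℕ} (a b : ℕ) (x : Fin 2 × Fin P → ℕ) :
    wt (cons a b x) = a + b + wt x := by
  unfold wt
  rw [Fintype.sum_prod_type, Fintype.sum_prod_type]
  rw [Fin.sum_univ_two, Fin.sum_univ_two, Fin.sum_univ_succ, Fin.sum_univ_succ]
  simp only [cons_zero_zero, cons_one_zero, cons_succ]
  ring

lemma antitone_iff {P : ℕ} (x : Fin 2 × Fin P → ℕ) :
    Antitone x ↔ (∀ j, x (1, j) ≤ x (0, j)) ∧ (∀ i, Antitone fun j => x (i, j)) := by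
  constructor
  · intro h
    refine ⟨fun j => h ?_, fun i j k hjk => h ?_⟩
    · exact ⟨Fin.zero_le _, le_rfl⟩
    · exact ⟨le_rfl, hjk⟩
  · rintro ⟨h1, h2⟩ ⟨i, j⟩ ⟨i', j'⟩ ⟨hi, hj⟩
    simp only at hi hj
    have h3 : x (i', j') ≤ x (i', j) := h2 i' hj
    refine h3.trans ?_
    fin_cases i <;> fin_cases i'
    · exact le_rfl
    · exact h1 j
    · exact absurd hi (by decide)
    · exact le_rfl

lemma antitone_cons {P : ℕ} (a b : ℕ) (x : Fin 2 × Fin P → ℕ) :
    Antitone (cons a b x) ↔ b ≤ a ∧ (∀ j, x (0, j) ≤ a) ∧ (∀ j, x (1, j) ≤ b) ∧ Antitone x := by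
  rw [antitone_iff, antitone_iff]
  constructor
  · rintro ⟨h1, h2⟩
    refine ⟨?_, fun j => ?_, fun j => ?_, fun j => ?_, fun i j k hjk => ?_⟩
    · simpa using h1 0
    · simpa using h2 0 (Fin.zero_le j.succ)
    · simpa using h2 1 (Fin.zero_le j.succ)
    · simpa using h1 j.succ
    · simpa using h2 i (Fin.succ_le_succ_iff.mpr hjk)
  · rintro ⟨h1, h2, h3, h4, h5⟩
    refine ⟨fun j => ?_, fun i j k hjk => ?_⟩
    · refine Fin.cases ?_ (fun j => ?_) j
      · simpa using h1
      · simpa using h4 j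
    · revert hjk
      refine Fin.cases ?_ (fun j => ?_) j
      · refine Fin.cases ?_ (fun k => ?_) k
        · intro _; exact le_rfl
        · intro _
          fin_cases i
          · simpa using h2 k
          · simpa using h3 k
      · refine Fin.cases ?_ (fun k => ?_) k
        · intro hh
          exact absurd hh (by simp)
        · intro hh
          have := h5 i (Fin.succ_le_succ_iff.mp hh)
          simpa using this

lemma cons_mem_T {P p a b a' b' : ℕ} {x : Fin 2 × Fin P → ℕ} :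
    cons a' b' x ∈ T (P + 1) (p + 1) a b ↔
      b' ≤ a' ∧ a' ≤ a ∧ b' ≤ b ∧ x ∈ T P p a' b' := by
  rw [mem_T, mem_T, antitone_cons]
  constructor
  · rintro ⟨h1, h2, ⟨h3, h4, h5, h6⟩, h7⟩
    refine ⟨h3, ?_, ?_, h4, h5, h6, fun c hc => ?_⟩
    · simpa using h1 0
    · simpa using h2 0
    · have := h7 (c.1, c.2.succ) (by simpa using hc)
      simpa using this
  · rintro ⟨h1, h2, h3, h4, h5, h6, h7⟩
    refine ⟨fun j => ?_, fun j => ?_, ⟨h1, h4, h5, h6⟩, ?_⟩
    · refine Fin.cases ?_ (fun j => ?_) j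
      · simpa using h2
      · simpa using (h4 j).trans h2
    · refine Fin.cases ?_ (fun j => ?_) j
      · simpa using h3
      · simpa using (h5 j).trans h3
    · rintro ⟨i, j⟩
      refine Fin.cases ?_ (fun j => ?_) j
      · intro hh
        simp at hh
      · intro hh
        simp only [Fin.val_succ, add_le_add_iff_right] at hh
        simpa using h7 (i, j) hh

/-- The arrays with prescribed first column. -/
lemma gf_fix {P p a b a' b' : ℕ} (h1 : b' ≤ a') (h2 : a' ≤ a) (h3 : b' ≤ b) :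
    gf ((T (P + 1) (p + 1) a b).filter fun x => x (0, 0) = a' ∧ x (1, 0) = b') =
      X ^ (a' + b') * gf (T P p a' b') := by
  unfold gf
  rw [Finset.mul_sum]
  refine Finset.sum_bij' (fun x _ => tl x) (fun x _ => cons a' b' x) ?_ ?_ ?_ ?_ ?_
  · intro x hx
    rw [Finset.mem_filter] at hx
    obtain ⟨hx, h4, h5⟩ := hx
    rw [← cons_tl x, h4, h5, cons_mem_T] at hx
    exact hx.2.2.2
  · intro x hx
    rw [Finset.mem_filter, cons_mem_T]
    exact ⟨⟨h1, h2, h3, hx⟩, by simp, by simp⟩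
  · intro x hx
    rw [Finset.mem_filter] at hx
    obtain ⟨hx, h4, h5⟩ := hx
    have := cons_tl x
    rw [h4, h5] at this
    exact this
  · intro x hx
    simp
  · intro x hx
    rw [Finset.mem_filter] at hx
    obtain ⟨hx, h4, h5⟩ := hx
    have := cons_tl x
    rw [h4, h5] at this
    conv_lhs => rw [← this]
    rw [wt_cons, pow_add]

lemma gf_T_succ (P p a b : ℕ) :
    gf (T (P + 1) (p + 1) a b) =
      ∑ b' ∈ Finset.range (b + 1), ∑ a' ∈ Finset.Icc b' a,
        X ^ (a' + b') * gf (T P p a' b') := by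
  classical
  rw [Finset.sum_sigma']
  have hmaps : ∀ x ∈ T (P + 1) (p + 1) a b,
      (⟨x (1, 0), x (0, 0)⟩ : (_ : ℕ) × ℕ) ∈
        (Finset.range (b + 1)).sigma fun b' => Finset.Icc b' a := by
    intro x hx
    rw [← cons_tl x, cons_mem_T] at hx
    rw [Finset.mem_sigma, Finset.mem_range, Finset.mem_Icc]
    simp only
    omega
  unfold gf
  rw [← Finset.sum_fiberwise_of_maps_to hmaps]
  apply Finset.sum_congr rfl
  rintro ⟨b', a'⟩ h
  rw [Finset.mem_sigma, Finset.mem_range, Finset.mem_Icc] at h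
  simp only at h
  have := gf_fix (P := P) (p := p) (a := a) (b := b) (a' := a') (b' := b') h.2.1 h.2.2 (by omega)
  unfold gf at this
  simp only
  rw [← this]
  apply Finset.sum_congr
  · ext x
    simp only [Finset.mem_filter, Sigma.mk.injEq, heq_eq_eq]
    tauto
  · intro _ _; rfl

lemma gf_T_zero (P a b : ℕ) : gf (T P 0 a b) = 1 := by
  classical
  have : T P 0 a b = {fun _ => 0} := by
    ext x
    rw [mem_T, Finset.mem_singleton]
    constructor
    · rintro ⟨_, _, _, h⟩
      funext c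
      exact h c (Nat.zero_le _)
    · rintro rfl
      exact ⟨fun _ => Nat.zero_le _, fun _ => Nat.zero_le _, fun _ _ _ => le_rfl,
        fun _ _ => rfl⟩
  rw [this]
  simp [gf, wt]

end Pool.Agent.Lib.MP_e8398c_co.H70
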