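import Pool.Agent.Lib.MP_e8398c_co.H70.Ineq

/-!
Gaussian binomials and the product formula for the generating function of plane partitions in a
`2 × p × s` box.
-/

namespace Pool.Agent.Lib.MP_e8398c_co.H70

open Finset Polynomial

/-- The Gaussian binomial `[p+s choose p]`, by the recursion on the size of the box. -/
noncomputable def B : ℕ → ℕ → ℤ[X]
  | 0, _ => 1
  | (_ + 1), 0 => 1
  | (p + 1), (s + 1) => B (p + 1) s + X ^ (s + 1) * B p (s + 1)
termination_by p s => (p, s)

lemma B_zero_left (s : ℕ) : B 0 s = 1 := by rw [B]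

lemma B_zero_right (p : ℕ) : B p 0 = 1 := by cases p <;> rw [B]

lemma B_succ (p s : ℕ) : B (p + 1) (s + 1) = B (p + 1) s + X ^ (s + 1) * B p (s + 1) := by
  rw [B]

/-- `B (p-1) (s+1)`, and `0` for `p = 0`. -/
noncomputable def Bl : ℕ → ℕ → ℤ[X]
  | 0, _ => 0
  | (p + 1), s => B p (s + 1)

/-- `B (p+1) (s-1)`, and `0` for `s = 0`. -/
noncomputable def Br : ℕ → ℕ → ℤ[X]
  | _, 0 => 0
  | p, (s + 1) => B (p + 1) s

/-- The closed formula for `W`. -/
noncomputable def R (p a b : ℕ) : ℤ[X] := B p a * B p b - X * Bl p a * Br p b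

lemma B_step (p s : ℕ) : B p (s + 1) = B p s + X ^ (s + 1) * Bl p s := by
  cases p with
  | zero => simp [Bl, B_zero_left]
  | succ p => rw [B_succ]; rfl

/-- column sums -/
lemma inner_sum (p b : ℕ) (hW : ∀ a b, b ≤ a → W p a b = R p a b) : ∀ k,
    ∑ a' ∈ Finset.Icc b (b + k), X ^ (a' + b) * W p a' b =
      X ^ b * (B (p + 1) (b + k) * B p b - B p (b + k + 1) * Br p b) := by
  intro k
  induction k with
  | zero =>
    rw [add_zero, Finset.Icc_self, Finset.sum_singleton, hW b b le_rfl]
    cases b with
    | zero =>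
      simp [R, Br, B_zero_right]
    | succ b =>
      unfold R
      simp only [Br]
      rw [B_step p (b + 1), B_succ p b]
      ring
  | succ k ih =>
    rw [← add_assoc, Finset.sum_Icc_succ_top (by omega), ih, hW _ _ (by omega)]
    unfold R
    rw [B_succ p (b + k), B_step p (b + k + 1)]
    cases b with
    | zero => simp [Br]; ring
    | succ b => simp only [Br]; ring

lemma W_eq_R (p : ℕ) : ∀ a b, b ≤ a → W p a b = R p a b := by
  induction p with
  | zero =>
    intro a b _
    simp [W, R, Bl, B_zero_left]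
  | succ p ih =>
    intro a b
    induction b with
    | zero =>
      intro _
      show ∑ b' ∈ Finset.range (0 + 1), ∑ a' ∈ Finset.Icc b' a, X ^ (a' + b') * W p a' b' = _
      rw [zero_add, Finset.sum_range_one]
      have := inner_sum p 0 ih a
      rw [zero_add] at this
      rw [this]
      simp [R, Br, B_zero_right]
    | succ b ihb =>
      intro hb
      show ∑ b' ∈ Finset.range (b + 1 + 1), ∑ a' ∈ Finset.Icc b' a, X ^ (a' + b') * W p a' b' = _
      rw [Finset.sum_range_succ]
      have h1 : ∑ b' ∈ Finset.range (b + 1), ∑ a' ∈ Finset.Icc b' a,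
          X ^ (a' + b') * W p a' b' = R (p + 1) a b := ihb (by omega)
      rw [h1]
      obtain ⟨k, rfl⟩ : ∃ k, a = b + 1 + k := ⟨a - (b + 1), by omega⟩
      rw [inner_sum p (b + 1) ih k]
      unfold R
      rw [B_succ p b]
      simp only [Br, Bl]
      cases b with
      | zero => simp [B_zero_right]; ring
      | succ b =>
        rw [B_succ (p + 1) b]
        ring

/-- `(q;q)_a`. -/
noncomputable def poch (a : ℕ) : ℤ[X] := ∏ i ∈ Finset.range a, (1 - X ^ (i + 1))

lemma poch_succ (a : ℕ) : poch (a + 1) = poch a * (1 - X ^ (a + 1)) := by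
  unfold poch
  rw [Finset.prod_range_succ]

lemma one_sub_ne_zero (i : ℕ) : (1 - X ^ (i + 1) : ℤ[X]) ≠ 0 := by
  intro h
  have := congrArg (fun f => Polynomial.eval 0 f) h
  simp at this

lemma poch_ne_zero (a : ℕ) : poch a ≠ 0 := by
  unfold poch
  rw [Finset.prod_ne_zero_iff]
  intro i _
  exact one_sub_ne_zero i

lemma B_mul_poch (p : ℕ) : ∀ s, B p s * (poch p * poch s) = poch (p + s) := by
  induction p with
  | zero => intro s; simp [B_zero_left, poch]
  | succ p ih =>
    intro s
    induction s with
    | zero => simp [B_zero_right, poch]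
    | succ s ihs =>
      rw [B_succ, add_mul]
      have h1 : B (p + 1) s * (poch (p + 1) * poch (s + 1)) =
          (1 - X ^ (s + 1)) * poch (p + 1 + s) := by
        rw [poch_succ s, ← ihs]; ring
      have h2 : X ^ (s + 1) * B p (s + 1) * (poch (p + 1) * poch (s + 1)) =
          X ^ (s + 1) * (1 - X ^ (p + 1)) * poch (p + (s + 1)) := by
        rw [poch_succ p, ← ih (s + 1)]; ring
      rw [h1, h2, show p + 1 + (s + 1) = (p + 1 + s) + 1 by ring,
        show p + (s + 1) = p + 1 + s by ring, poch_succ (p + 1 + s)]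
      ring

lemma Bl_mul_poch (p s : ℕ) : Bl p s * (poch p * poch (s + 1)) = (1 - X ^ p) * poch (p + s) := by
  cases p with
  | zero => simp [Bl]
  | succ p =>
    simp only [Bl]
    have := B_mul_poch p (s + 1)
    rw [poch_succ p, show p + 1 + s = p + (s + 1) by ring, ← this]
    ring

lemma Br_mul_poch (p s : ℕ) : Br p s * (poch (p + 1) * poch s) = (1 - X ^ s) * poch (p + s) := by
  cases s with
  | zero => simp [Br]
  | succ s =>
    simp only [Br]
    have := B_mul_poch (p + 1) s
    rw [poch_succ s, show p + (s + 1) = p + 1 + s by ring, ← this]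
    ring

/-- The product formula. -/
lemma W_formula (p s : ℕ) :
    (1 - X ^ (p + s + 1)) * W p s s = (1 - X) * (B p (s + 1) * B (p + 1) s) := by
  rw [W_eq_R p s s le_rfl]
  unfold R
  have hne : poch p * poch (p + 1) * (poch s * poch (s + 1)) ≠ 0 :=
    mul_ne_zero (mul_ne_zero (poch_ne_zero _) (poch_ne_zero _))
      (mul_ne_zero (poch_ne_zero _) (poch_ne_zero _))
  apply mul_right_cancel₀ hne
  have e1 := B_mul_poch p s
  have e2 := Bl_mul_poch p s
  have e3 := Br_mul_poch p s
  have e4 := B_mul_poch p (s + 1)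
  have e5 := B_mul_poch (p + 1) s
  have e6 : B p s * B p s * (poch p * poch (p + 1) * (poch s * poch (s + 1))) =
      (1 - X ^ (p + 1)) * (1 - X ^ (s + 1)) * (poch (p + s) * poch (p + s)) := by
    rw [poch_succ p, poch_succ s, ← e1]; ring
  have e7 : Bl p s * Br p s * (poch p * poch (p + 1) * (poch s * poch (s + 1))) =
      (1 - X ^ p) * (1 - X ^ s) * (poch (p + s) * poch (p + s)) := by
    calc _ = (Bl p s * (poch p * poch (s + 1))) * (Br p s * (poch (p + 1) * poch s)) := by ring
      _ = _ := by rw [e2, e3]; ring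
  have e8 : B p (s + 1) * B (p + 1) s * (poch p * poch (p + 1) * (poch s * poch (s + 1))) =
      (1 - X ^ (p + s + 1)) ^ 2 * (poch (p + s) * poch (p + s)) := by
    calc _ = (B p (s + 1) * (poch p * poch (s + 1))) *
          (B (p + 1) s * (poch (p + 1) * poch s)) := by ring
      _ = _ := by
          rw [e4, e5, show p + (s + 1) = p + s + 1 by ring, show p + 1 + s = p + s + 1 by ring,
            poch_succ (p + s)]
          ring
  calc _ = (1 - X ^ (p + s + 1)) *
        (B p s * B p s * (poch p * poch (p + 1) * (poch s * poch (s + 1))) -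
          X * (Bl p s * Br p s * (poch p * poch (p + 1) * (poch s * poch (s + 1))))) := by ring
    _ = (1 - X) * (B p (s + 1) * B (p + 1) s *
          (poch p * poch (p + 1) * (poch s * poch (s + 1)))) := by
        rw [e6, e7, e8]; ring
    _ = _ := by ring

end Pool.Agent.Lib.MP_e8398c_co.H70
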