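import Pool.Agent.Lib.MP_e8398c_co.H70.Arrays

/-!
The two coefficientwise inequalities for the generating functions of two-rowed plane partitions.
-/

namespace Pool.Agent.Lib.MP_e8398c_co.H70

open Finset Polynomial

/-- Generating function of the two-rowed plane partitions with `p` columns, with bounds
`a` and `b` for the two rows, by recursion. -/
noncomputable def W : ℕ → ℕ → ℕ → ℤ[X]
  | 0, _, _ => 1
  | (p + 1), a, b =>
      ∑ b' ∈ Finset.range (b + 1), ∑ a' ∈ Finset.Icc b' a, X ^ (a' + b') * W p a' b'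

lemma gf_T_eq (p : ℕ) : ∀ P a b, p ≤ P → gf (T P p a b) = W p a b := by
  induction p with
  | zero => intro P a b _; rw [gf_T_zero]; rfl
  | succ p ih =>
    intro P a b hP
    obtain ⟨P, rfl⟩ : ∃ P', P = P' + 1 := ⟨P - 1, by omega⟩
    rw [gf_T_succ]
    show _ = ∑ b' ∈ Finset.range (b + 1), ∑ a' ∈ Finset.Icc b' a, X ^ (a' + b') * W p a' b'
    refine Finset.sum_congr rfl fun b' _ => Finset.sum_congr rfl fun a' _ => ?_
    rw [ih P a' b' (by omega)]

/-- First step: change the number of columns. -/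
theorem step_one (p s n : ℕ) :
    (W p (s + 2) (s + 2) * W (p + 2) s s).coeff n ≤
      (W (p + 1) (s + 2) (s + 2) * W (p + 1) s s).coeff n := by
  classical
  have h := qfour (ι := Fin 2 × Fin (p + 2))
    ((T (p + 2) (p + 1) (s + 2) (s + 2)).filter fun x => x (0, 0) = s + 2 ∧ x (1, 0) = s + 2)
    (T (p + 2) (p + 2) s s)
    ((T (p + 2) (p + 2) (s + 2) (s + 2)).filter fun x => x (0, 0) = s + 2 ∧ x (1, 0) = s + 2)
    (T (p + 2) (p + 1) s s) ?_ (n + 2 * (s + 2))
  · rw [gf_fix (P := p + 1) (p := p) le_rfl le_rfl le_rfl,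
      gf_fix (P := p + 1) (p := p + 1) le_rfl le_rfl le_rfl,
      gf_T_eq p (p + 1) _ _ (by omega), gf_T_eq (p + 2) (p + 2) _ _ le_rfl,
      gf_T_eq (p + 1) (p + 1) _ _ le_rfl, gf_T_eq (p + 1) (p + 2) _ _ (by omega)] at h
    rw [mul_assoc, mul_assoc, show s + 2 + (s + 2) = 2 * (s + 2) by ring,
      Polynomial.coeff_X_pow_mul, Polynomial.coeff_X_pow_mul] at h
    exact h
  · intro x hx y hy
    rw [Finset.mem_filter, mem_T] at hx
    rw [mem_T] at hy
    obtain ⟨⟨hx1, hx2, hx3, hx4⟩, hx5, hx6⟩ := hx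
    obtain ⟨hy1, hy2, hy3, hy4⟩ := hy
    rw [Finset.mem_filter, mem_T, mem_T]
    refine ⟨⟨⟨fun j => ?_, fun j => ?_, hx3.sup hy3, fun c hc => ?_⟩, ?_, ?_⟩,
      fun j => ?_, fun j => ?_, hx3.inf hy3, fun c hc => ?_⟩
    · have := hx1 j; have := hy1 j
      simp only [Pi.sup_apply]; omega
    · have := hx2 j; have := hy2 j
      simp only [Pi.sup_apply]; omega
    · exact absurd hc (by have := c.2.isLt; omega)
    · have := hy1 0
      simp only [Pi.sup_apply]; omega
    · have := hy2 0
      simp only [Pi.sup_apply]; omega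
    · have := hx1 j; have := hy1 j
      simp only [Pi.inf_apply]; omega
    · have := hx2 j; have := hy2 j
      simp only [Pi.inf_apply]; omega
    · have := hx4 c hc
      simp only [Pi.inf_apply]; omega

/-- The arrays of `T p p a a`, all entries increased by one. -/
noncomputable def Sh (p a : ℕ) : Finset (Fin 2 × Fin p → ℕ) := by
  classical
  exact (T p p a a).image fun x c => x c + 1

lemma mem_Sh {p a : ℕ} {x : Fin 2 × Fin p → ℕ} :
    x ∈ Sh p a ↔ Antitone x ∧ ∀ c, 1 ≤ x c ∧ x c ≤ a + 1 := by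
  classical
  unfold Sh
  rw [Finset.mem_image]
  constructor
  · rintro ⟨y, hy, rfl⟩
    rw [mem_T] at hy
    obtain ⟨h1, h2, h3, h4⟩ := hy
    refine ⟨fun c d hcd => Nat.add_le_add_right (h3 hcd) 1, ?_⟩
    rintro ⟨i, j⟩
    fin_cases i
    · have := h1 j
      simp only [Fin.zero_eta, Fin.isValue]; omega
    · have := h2 j
      simp only [Fin.mk_one, Fin.isValue]; omega
  · rintro ⟨h1, h2⟩
    refine ⟨fun c => x c - 1, ?_, ?_⟩
    · rw [mem_T]
      refine ⟨fun j => ?_, fun j => ?_, fun c d hcd => Nat.sub_le_sub_right (h1 hcd) 1,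
        fun c hc => ?_⟩
      · have := h2 (0, j); omega
      · have := h2 (1, j); omega
      · exact absurd hc (by have := c.2.isLt; omega)
    · funext c
      have := h2 c
      show x c - 1 + 1 = x c
      omega

lemma gf_Sh (p a : ℕ) : gf (Sh p a) = X ^ (2 * p) * W p a a := by
  classical
  rw [← gf_T_eq p p a a le_rfl]
  unfold gf Sh
  rw [Finset.sum_image, Finset.mul_sum]
  · apply Finset.sum_congr rfl
    intro x _
    rw [← pow_add]
    congr 1
    unfold wt
    rw [Finset.sum_add_distrib]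
    simp only [Finset.sum_const, Finset.card_univ, Fintype.card_prod, Fintype.card_fin,
      smul_eq_mul, mul_one]
    ring
  · intro x _ y _ hxy
    funext c
    have := congrFun hxy c
    simpa using this

/-- Second step: change the bound on the entries. -/
theorem step_two (p s n : ℕ) :
    (W p (s + 2) (s + 2) * W p s s).coeff n ≤
      (W p (s + 1) (s + 1) * W p (s + 1) (s + 1)).coeff n := by
  classical
  have h := qfour (ι := Fin 2 × Fin p) (T p p (s + 2) (s + 2)) (Sh p s)
    (Sh p (s + 1)) (T p p (s + 1) (s + 1)) ?_ (n + 2 * p)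
  · rw [gf_Sh, gf_Sh, gf_T_eq p p _ _ le_rfl, gf_T_eq p p _ _ le_rfl] at h
    rw [show W p (s + 2) (s + 2) * (X ^ (2 * p) * W p s s) =
        X ^ (2 * p) * (W p (s + 2) (s + 2) * W p s s) by ring, mul_assoc,
      Polynomial.coeff_X_pow_mul, Polynomial.coeff_X_pow_mul] at h
    exact h
  · intro x hx y hy
    rw [mem_T] at hx
    rw [mem_Sh] at hy
    obtain ⟨hx1, hx2, hx3, hx4⟩ := hx
    obtain ⟨hy1, hy2⟩ := hy
    rw [mem_Sh, mem_T]
    refine ⟨⟨hx3.sup hy1, ?_⟩, fun j => ?_, fun j => ?_, hx3.inf hy1, fun c hc => ?_⟩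
    · rintro ⟨i, j⟩
      have h3 := hy2 (i, j)
      fin_cases i
      · have := hx1 j
        simp only [Pi.sup_apply, Fin.zero_eta, Fin.isValue] at h3 ⊢; omega
      · have := hx2 j
        simp only [Pi.sup_apply, Fin.mk_one, Fin.isValue] at h3 ⊢; omega
    · have h3 := hy2 (0, j)
      simp only [Pi.inf_apply]; omega
    · have h3 := hy2 (1, j)
      simp only [Pi.inf_apply]; omega
    · exact absurd hc (by have := c.2.isLt; omega)

/-- The generating functions of plane partitions in a `2 × p × s` box are log-concave,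
coefficientwise, along `p + s = const`. -/
theorem W_concave (p s n : ℕ) :
    (W p (s + 2) (s + 2) * W (p + 2) s s).coeff n ≤
      (W (p + 1) (s + 1) (s + 1) * W (p + 1) (s + 1) (s + 1)).coeff n :=
  (step_one p s n).trans (step_two (p + 1) s n)

end Pool.Agent.Lib.MP_e8398c_co.H70
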