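import Mathlib

/-!
A coefficientwise version of the four functions theorem for families of
functions `ι → ℕ`.
-/

namespace Pool.Agent.Lib.MP_e8398c_co.H70

open Finset Polynomial
open scoped FinsetFamily

set_option linter.unusedSectionVars false

variable {ι : Type*} [Fintype ι] [DecidableEq ι]

/-- The function which is `t` on `A` and `s` off `A`. -/
def glue (s t : ι → ℕ) (A : Finset ι) : ι → ℕ := fun i => if i ∈ A then t i else s i

/-- Weight of a function. -/
def wt (x : ι → ℕ) : ℕ := ∑ i, x i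

/-- The set of coordinates where `s` and `t` differ. -/
def dif (s t : ι → ℕ) : Finset ι := Finset.univ.filter fun i => s i ≠ t i

lemma glue_sup (s t : ι → ℕ) (hst : s ≤ t) (A B : Finset ι) :
    glue s t A ⊔ glue s t B = glue s t (A ∪ B) := by
  funext i
  have := hst i
  simp only [glue, Pi.sup_apply, Finset.mem_union]
  by_cases ha : i ∈ A <;> by_cases hb : i ∈ B <;> simp [ha, hb] <;> omega

lemma glue_inf (s t : ι → ℕ) (hst : s ≤ t) (A B : Finset ι) :
    glue s t A ⊓ glue s t B = glue s t (A ∩ B) := by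
  funext i
  have := hst i
  simp only [glue, Pi.inf_apply, Finset.mem_inter]
  by_cases ha : i ∈ A <;> by_cases hb : i ∈ B <;> simp [ha, hb] <;> omega

lemma glue_empty (s t : ι → ℕ) : glue s t ∅ = s := by
  funext i; simp [glue]

lemma glue_dif (s t : ι → ℕ) : glue s t (dif s t) = t := by
  funext i
  simp only [glue, dif, Finset.mem_filter, Finset.mem_univ, true_and]
  by_cases h : s i = t i <;> simp [h]

/-- a pair with given infimum and supremum is a glued pair -/
lemma eq_glue (x y s t : ι → ℕ) (hi : x ⊓ y = s) (hs : x ⊔ y = t) :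
    x = glue s t ((dif s t).filter fun i => x i = t i) ∧
      y = glue s t (dif s t \ ((dif s t).filter fun i => x i = t i)) := by
  subst hi hs
  constructor
  · funext i
    simp only [glue, dif, Finset.mem_filter, Finset.mem_univ, true_and, Pi.inf_apply,
      Pi.sup_apply]
    rcases le_total (x i) (y i) with h | h
    · by_cases he : x i = y i
      · simp [he]
      · simp [h, he]
    · by_cases he : x i = y i
      · simp [he]
      · have : ¬ (y i = x i) := fun h' => he h'.symm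
        simp [h, this]
  · funext i
    simp only [glue, dif, Finset.mem_filter, Finset.mem_univ, true_and, Pi.inf_apply,
      Pi.sup_apply, Finset.mem_sdiff]
    rcases le_total (x i) (y i) with h | h
    · by_cases he : x i = y i
      · simp [he]
      · simp [h, he]
    · by_cases he : x i = y i
      · simp [he]
      · have : ¬ (y i = x i) := fun h' => he h'.symm
        simp [h, this]

lemma fiber_le (𝒜 ℬ 𝒞 𝒟 : Finset (ι → ℕ))
    (h : ∀ x ∈ 𝒜, ∀ y ∈ ℬ, x ⊔ y ∈ 𝒞 ∧ x ⊓ y ∈ 𝒟) (s t : ι → ℕ) :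
    #{z ∈ 𝒜 ×ˢ ℬ | z.1 ⊓ z.2 = s ∧ z.1 ⊔ z.2 = t} ≤
      #{z ∈ 𝒞 ×ˢ 𝒟 | z.1 ⊓ z.2 = s ∧ z.1 ⊔ z.2 = t} := by
  classical
  rcases Finset.eq_empty_or_nonempty {z ∈ 𝒜 ×ˢ ℬ | z.1 ⊓ z.2 = s ∧ z.1 ⊔ z.2 = t} with h0 | h0
  · rw [h0]; simp
  obtain ⟨z0, hz0⟩ := h0
  simp only [Finset.mem_filter] at hz0
  have hst : s ≤ t := by
    rw [← hz0.2.1, ← hz0.2.2]
    exact inf_le_sup
  set U := dif s t with hU
  set F : Finset (Finset ι) := U.powerset.filter fun A =>
    glue s t A ∈ 𝒜 ∧ glue s t (U \ A) ∈ ℬ with hF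
  have h1 : #{z ∈ 𝒜 ×ˢ ℬ | z.1 ⊓ z.2 = s ∧ z.1 ⊔ z.2 = t} ≤ #F := by
    apply Finset.card_le_card_of_injOn
      (fun z => (dif s t).filter fun i => z.1 i = t i)
    · intro z hz
      simp only [Finset.coe_filter, Finset.mem_product, Set.mem_ofPred_eq] at hz
      obtain ⟨⟨hzA, hzB⟩, hi, hs⟩ := hz
      obtain ⟨e1, e2⟩ := eq_glue z.1 z.2 s t hi hs
      simp only [hF, Finset.coe_filter, Finset.mem_powerset, Set.mem_ofPred_eq]
      refine ⟨Finset.filter_subset _ _, ?_, ?_⟩
      · rw [← e1]; exact hzA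
      · rw [hU, ← e2]; exact hzB
    · intro z hz w hw hzw
      simp only [Finset.coe_filter, Finset.mem_product, Set.mem_ofPred_eq] at hz hw
      obtain ⟨e1, e2⟩ := eq_glue z.1 z.2 s t hz.2.1 hz.2.2
      obtain ⟨f1, f2⟩ := eq_glue w.1 w.2 s t hw.2.1 hw.2.2
      simp only at hzw
      refine Prod.ext ?_ ?_
      · rw [e1, f1, hzw]
      · rw [e2, f2, hzw]
  have h2 : #F ≤ #(F \\ F) := Finset.card_le_card_diffs F
  have h3 : #(F \\ F) ≤ #{z ∈ 𝒞 ×ˢ 𝒟 | z.1 ⊓ z.2 = s ∧ z.1 ⊔ z.2 = t} := by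
    apply Finset.card_le_card_of_injOn (fun D => (glue s t (U \ D), glue s t D))
    · intro D hD
      rw [Finset.mem_coe, Finset.mem_diffs] at hD
      obtain ⟨B, hB, A, hA, rfl⟩ := hD
      rw [hF, Finset.mem_filter, Finset.mem_powerset] at hA hB
      simp only [Finset.coe_filter, Finset.mem_product, Set.mem_ofPred_eq]
      have e1 : U \ (B \ A) = A ∪ (U \ B) := by
        ext i
        simp only [Finset.mem_sdiff, Finset.mem_union]
        constructor
        · rintro ⟨hi, hn⟩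
          by_cases hb : i ∈ B
          · left
            by_contra ha
            exact hn ⟨hb, ha⟩
          · right; exact ⟨hi, hb⟩
        · rintro (ha | ⟨hi, hb⟩)
          · exact ⟨hA.1 ha, fun hh => hh.2 ha⟩
          · exact ⟨hi, fun hh => hb hh.1⟩
      have e2 : B \ A = B ∩ (U \ A) := by
        ext i
        simp only [Finset.mem_sdiff, Finset.mem_inter]
        constructor
        · rintro ⟨hb, ha⟩; exact ⟨hb, hB.1 hb, ha⟩
        · rintro ⟨hb, _, ha⟩; exact ⟨hb, ha⟩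
      refine ⟨⟨?_, ?_⟩, ?_, ?_⟩
      · rw [e1, ← glue_sup s t hst]
        exact (h _ hA.2.1 _ hB.2.2).1
      · rw [e2, ← glue_inf s t hst]
        exact (h _ hB.2.1 _ hA.2.2).2
      · rw [glue_inf s t hst]
        have : (U \ (B \ A)) ∩ (B \ A) = ∅ := by
          ext i; simp
        rw [this, glue_empty]
      · rw [glue_sup s t hst]
        have : (U \ (B \ A)) ∪ (B \ A) = U := by
          apply Finset.sdiff_union_of_subset
          exact (Finset.sdiff_subset).trans hB.1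
        rw [this, hU, glue_dif]
    · intro D hD E hE hDE
      rw [Finset.mem_coe, Finset.mem_diffs] at hD hE
      have hDU : D ⊆ U := by
        obtain ⟨B, hB, A, hA, rfl⟩ := hD
        rw [hF, Finset.mem_filter, Finset.mem_powerset] at hB
        exact (Finset.sdiff_subset).trans hB.1
      have hEU : E ⊆ U := by
        obtain ⟨B, hB, A, hA, rfl⟩ := hE
        rw [hF, Finset.mem_filter, Finset.mem_powerset] at hB
        exact (Finset.sdiff_subset).trans hB.1
      simp only [Prod.mk.injEq] at hDE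
      have key : ∀ (D' : Finset ι), D' ⊆ U → ∀ i, i ∈ D' ↔ (i ∈ U ∧ glue s t D' i = t i) := by
        intro D' hD' i
        constructor
        · intro hi
          exact ⟨hD' hi, by simp [glue, hi]⟩
        · rintro ⟨hi, hg⟩
          by_contra hn
          simp only [glue, hn, if_false] at hg
          simp only [hU, dif, Finset.mem_filter, Finset.mem_univ, true_and] at hi
          exact hi hg
      ext i
      rw [key D hDU, key E hEU, hDE.2]
  exact h1.trans (h2.trans h3)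

/-- Generating function of a finite family by weight. -/
noncomputable def gf (S : Finset (ι → ℕ)) : ℤ[X] := ∑ x ∈ S, X ^ wt x

lemma coeff_gf_mul (S T : Finset (ι → ℕ)) (n : ℕ) :
    (gf S * gf T).coeff n = (#{z ∈ S ×ˢ T | wt z.1 + wt z.2 = n} : ℤ) := by
  classical
  unfold gf
  rw [Finset.sum_mul_sum, ← Finset.sum_product', Polynomial.finsetSum_coeff]
  rw [Finset.card_filter]
  push_cast
  apply Finset.sum_congr rfl
  intro z _
  rw [← pow_add, Polynomial.coeff_X_pow]
  by_cases hz : wt z.1 + wt z.2 = n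
  · simp [hz]
  · rw [if_neg hz, if_neg (fun hh => hz hh.symm)]

lemma wt_add (x y : ι → ℕ) : wt x + wt y = wt (x ⊓ y) + wt (x ⊔ y) := by
  unfold wt
  rw [← Finset.sum_add_distrib, ← Finset.sum_add_distrib]
  apply Finset.sum_congr rfl
  intro i _
  simp only [Pi.inf_apply, Pi.sup_apply]
  exact (min_add_max (x i) (y i)).symm

theorem qfour (𝒜 ℬ 𝒞 𝒟 : Finset (ι → ℕ))
    (h : ∀ x ∈ 𝒜, ∀ y ∈ ℬ, x ⊔ y ∈ 𝒞 ∧ x ⊓ y ∈ 𝒟) (n : ℕ) :
    (gf 𝒜 * gf ℬ).coeff n ≤ (gf 𝒞 * gf 𝒟).coeff n := by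
  classical
  rw [coeff_gf_mul, coeff_gf_mul]
  have key : ∀ (S T : Finset (ι → ℕ)) (I : Finset ((ι → ℕ) × (ι → ℕ))),
      (∀ z ∈ S ×ˢ T, (z.1 ⊓ z.2, z.1 ⊔ z.2) ∈ I) →
      #{z ∈ S ×ˢ T | wt z.1 + wt z.2 = n} =
        ∑ p ∈ I with wt p.1 + wt p.2 = n,
          #{z ∈ S ×ˢ T | z.1 ⊓ z.2 = p.1 ∧ z.1 ⊔ z.2 = p.2} := by
    intro S T I hI
    rw [Finset.card_eq_sum_card_fiberwise (f := fun z => (z.1 ⊓ z.2, z.1 ⊔ z.2))
      (t := I.filter fun p => wt p.1 + wt p.2 = n)]
    · apply Finset.sum_congr rfl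
      intro p hp
      rw [Finset.mem_filter] at hp
      congr 1
      ext z
      simp only [Finset.mem_filter]
      constructor
      · rintro ⟨⟨h1, h2⟩, h3⟩
        rw [← h3]
        exact ⟨h1, rfl, rfl⟩
      · rintro ⟨h1, h2, h3⟩
        refine ⟨⟨h1, ?_⟩, Prod.ext h2 h3⟩
        rw [wt_add, h2, h3]
        exact hp.2
    · intro z hz
      rw [Finset.mem_coe, Finset.mem_filter] at hz
      rw [Finset.mem_coe, Finset.mem_filter]
      refine ⟨hI z hz.1, ?_⟩
      simp only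
      rw [← wt_add]
      exact hz.2
  set I := ((𝒜 ×ˢ ℬ) ∪ (𝒞 ×ˢ 𝒟)).image (fun z => (z.1 ⊓ z.2, z.1 ⊔ z.2)) with hI
  rw [key 𝒜 ℬ I, key 𝒞 𝒟 I]
  · norm_cast
    apply Finset.sum_le_sum
    intro p _
    exact fiber_le 𝒜 ℬ 𝒞 𝒟 h p.1 p.2
  · intro z hz
    rw [hI]
    exact Finset.mem_image_of_mem _ (Finset.mem_union_right _ hz)
  · intro z hz
    rw [hI]
    exact Finset.mem_image_of_mem _ (Finset.mem_union_left _ hz)

end Pool.Agent.Lib.MP_e8398c_co.H70
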